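import Mathlib

set_option autoImplicit false

namespace Pool.Agent.Results.MP_57df8f_al.LocFin

open scoped MatrixGroups
open Matrix MulAction

section
variable (p : ℕ) [Fact p.Prime] {F : Type} [Field F] [Algebra (ZMod p) F]

lemma fin_ord [Algebra.IsAlgebraic (ZMod p) F] (A : GL (Fin 2) F) : IsOfFinOrder A := by
  have h1 : IsIntegral (ZMod p) A.1 := isIntegral_trans (A := F) _ (Matrix.isIntegral A.1)
  have h2 : Module.Finite (ZMod p) (Algebra.adjoin (ZMod p) {A.1}) :=
    Algebra.finite_adjoin_simple_of_isIntegral h1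
  have h3 : Finite (Algebra.adjoin (ZMod p) {A.1}) := Module.finite_of_finite (ZMod p)
  by_contra h
  have inj := injective_pow_iff_not_isOfFinOrder.2 h
  refine not_injective_infinite_finite (fun n : ℕ => (⟨A.1 ^ n,
    pow_mem (Algebra.self_mem_adjoin_singleton _ _) n⟩ : Algebra.adjoin (ZMod p) {A.1})) ?_
  intro m n e
  exact inj (Units.ext (by simpa using congrArg Subtype.val e))

lemma sq_zero (N : Matrix (Fin 2) (Fin 2) F) (h : IsNilpotent N) :
    N 1 1 = - N 0 0 ∧ N 0 0 * N 0 0 + N 0 1 * N 1 0 = 0 := by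
  have h1 := (Matrix.isNilpotent_trace_of_isNilpotent h).eq_zero
  obtain ⟨k, hk⟩ := h
  have h2 : N.det = 0 := by
    have := congrArg Matrix.det hk
    rw [det_pow, det_zero] at this
    exact pow_eq_zero_iff'.1 this |>.1
  rw [trace_fin_two] at h1
  rw [det_fin_two] at h2
  exact ⟨by linear_combination h1, by linear_combination N 0 0 * h1 - h2⟩

lemma comb (A N : Matrix (Fin 2) (Fin 2) F) (h : IsNilpotent N) (h0 : N ≠ 0) (hc : A * N = N * A) :
    N * N = 0 ∧ ∃ l m : F, A = scalar (Fin 2) l + scalar (Fin 2) m * N := by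
  obtain ⟨h1, h2⟩ := sq_zero N h
  have c00 := congrFun (congrFun hc 0) 0
  have c01 := congrFun (congrFun hc 0) 1
  have c10 := congrFun (congrFun hc 1) 0
  simp only [mul_apply, Fin.sum_univ_two, h1] at c00 c01 c10
  constructor
  · ext i j
    fin_cases i <;> fin_cases j <;> simp [mul_apply, Fin.sum_univ_two, h1]
    · exact h2
    · ring
    · ring
    · linear_combination h2
  · by_cases hb : N 0 1 = 0
    · have ha : N 0 0 = 0 := by simpa [hb] using h2
      have hcc : N 1 0 ≠ 0 := fun e => h0 (by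
        ext i j; fin_cases i <;> fin_cases j <;> simp [ha, hb, e, h1])
      refine ⟨A 0 0, A 1 0 / N 1 0, ?_⟩
      ext i j
      fin_cases i <;> fin_cases j <;> simp [ha, hb, h1, hcc, diagonal_mul]
      · apply mul_right_cancel₀ hcc; simpa [ha, hb] using c00
      · apply mul_right_cancel₀ hcc; rw [ha] at c10; linear_combination c10
    · refine ⟨A 0 0 - A 0 1 / N 0 1 * N 0 0, A 0 1 / N 0 1, ?_⟩
      ext i j
      fin_cases i <;> fin_cases j <;> simp [h1, hb, diagonal_mul]
      · field_simp; linear_combination -c00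
      · field_simp; linear_combination -c01

lemma ord [Algebra.IsAlgebraic (ZMod p) F] (g : PGL(2, F)) :
    ∃ m : ℕ, g ^ m = 1 ∧ (m = p ∨ ¬ p ∣ m) := by
  have hp : p.Prime := Fact.out
  obtain ⟨A, rfl⟩ := ProjGenLinGroup.mk_surjective g
  have : CharP F p := (Algebra.charP_iff (ZMod p) F p).1 inferInstance
  have : CharP (Matrix (Fin 2) (Fin 2) F) p := Matrix.charP p
  obtain ⟨a, m, hm, e⟩ := Nat.exists_eq_pow_mul_and_not_dvd (fin_ord p A).orderOf_pos.ne' p hp.ne_one
  by_cases h0 : A ^ m = 1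
  · exact ⟨m, by rw [← map_pow, h0, map_one], Or.inr hm⟩
  · refine ⟨p, ?_, Or.inl rfl⟩
    have h1 : (A.1 ^ m) ^ p ^ a = 1 := by
      rw [← pow_mul, mul_comm, ← e]
      rw [← Units.val_pow_eq_pow_val, pow_orderOf_eq_one, Units.val_one]
    have h2 : IsNilpotent (A.1 ^ m - 1) :=
      ⟨p ^ a, by rw [sub_pow_char_pow_of_commute _ _ (Commute.one_right _), h1, one_pow, sub_self]⟩
    obtain ⟨h3, l, μ, h4⟩ := comb A.1 _ h2 (fun e => h0 (Units.ext (by simpa using sub_eq_zero.1 e)))
      (((Commute.refl A.1).pow_right m).sub_right (Commute.one_right _))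
    generalize A.1 ^ m - 1 = N at h3 h4
    have cs : ∀ (x : F) (M : Matrix (Fin 2) (Fin 2) F), Commute (scalar (Fin 2) x) M :=
      fun x M => scalar_commute x (fun y => Commute.all x y) M
    have h5 : A.1 ^ p = scalar (Fin 2) (l ^ p) := by
      obtain ⟨k, hk⟩ := Nat.exists_eq_add_of_le hp.two_le
      rw [h4, add_pow_char_of_commute _ (cs _ _), (cs μ N).mul_pow, map_pow]
      have : N ^ p = 0 := by rw [hk, pow_add, sq, h3, zero_mul]
      rw [this, mul_zero, add_zero]
    rw [← map_pow, ProjGenLinGroup.mk_eq_one, Subgroup.mem_center_iff]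
    intro B
    apply Units.ext
    simp only [Units.val_mul, Units.val_pow_eq_pow_val, h5]
    exact (cs _ _).eq.symm

end

lemma lift_perm {G Ω ι : Type} [Group G] [MulAction G Ω] [Fintype ι] {n : ℕ}
    (hn : Fintype.card ι = n) (x : Fin n ↪ Ω) (h : IsMultiplyPretransitive G Ω n)
    (σ : Equiv.Perm ι) : ∃ g : G, ∀ m : ℕ, g ^ m = 1 → σ ^ m = 1 := by
  let e := Fintype.equivFinOfCardEq hn
  obtain ⟨g, hg⟩ := h.exists_smul_eq x ((e.symm.trans (σ.trans e)).toEmbedding.trans x)
  have h1 : ∀ i, g • x (e i) = x (e (σ i)) := fun i => by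
    have := congrArg (fun f : Fin n ↪ Ω => f (e i)) hg
    simpa using this
  have h2 : ∀ (m : ℕ) i, g ^ m • x (e i) = x (e ((σ ^ m) i)) := by
    intro m
    induction m with
    | zero => simp
    | succ m ih => intro i; rw [pow_succ', mul_smul, ih, h1, pow_succ', Equiv.Perm.mul_apply]
  refine ⟨g, fun m hm => Equiv.ext fun i => ?_⟩
  have := h2 m i
  rw [hm, one_smul] at this
  exact (e.injective (x.injective this)).symm

lemma main (p : ℕ) [Fact p.Prime] (F : Type) [Field F] [Algebra (ZMod p) F]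
    [Algebra.IsAlgebraic (ZMod p) F] (Ω : Type) [MulAction PGL(2, F) Ω] (x : Fin (p + 2) ↪ Ω) :
    ¬ IsMultiplyPretransitive PGL(2, F) Ω (p + 2) := by
  intro h
  have hp : p.Prime := Fact.out
  have key : ∀ (k m : ℕ), (Equiv.addLeft (1 : ZMod k)) ^ m = 1 → k ∣ m := fun k m e => by
    have := congrArg (fun f : Equiv.Perm (ZMod k) => f 0) e
    simpa [ZMod.natCast_eq_zero_iff] using this
  by_cases h2 : p = 2
  · subst h2
    obtain ⟨g, hg⟩ := lift_perm (ι := ZMod 4) (by simp) x h (Equiv.addLeft 1)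
    obtain ⟨m, h1, h3⟩ := ord 2 g
    have := key 4 m (hg m h1)
    omega
  · obtain ⟨g, hg⟩ := lift_perm (ι := ZMod p ⊕ ZMod 2) (by simp) x h
      (Equiv.Perm.sumCongrHom _ _ (Equiv.addLeft 1, Equiv.addLeft 1))
    obtain ⟨m, h1, h3⟩ := ord p g
    have h4 := hg m h1
    rw [← map_pow, ← map_one (Equiv.Perm.sumCongrHom _ _)] at h4
    have h5 := Equiv.Perm.sumCongrHom_injective h4
    rcases h3 with rfl | h3
    · exact h2 ((Nat.prime_dvd_prime_iff_eq Nat.prime_two hp).1
        (key 2 m (congrArg Prod.snd h5))).symm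
    · exact h3 (key p m (congrArg Prod.fst h5))

/-- For a field `F` algebraic over the prime field with `p` elements, no action of `PGL(2, F)` on a
set with at least `p + 2` points is `(p + 2)`-transitive; in particular there is a countably
infinite field `F` such that no action of `PGL(2, F)` is `4`-transitive. -/
theorem result :
    (∀ (p : ℕ) [Fact p.Prime] (F : Type) [Field F] [Algebra (ZMod p) F]
      [Algebra.IsAlgebraic (ZMod p) F] (Ω : Type) [MulAction PGL(2, F) Ω],
      Nonempty (Fin (p + 2) ↪ Ω) → ¬ IsMultiplyPretransitive PGL(2, F) Ω (p + 2)) ∧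
    ∃ (F : Type) (_ : Field F), Countable F ∧ Infinite F ∧
      ∀ (Ω : Type) [MulAction PGL(2, F) Ω],
        Nonempty (Fin 4 ↪ Ω) → ¬ IsMultiplyPretransitive PGL(2, F) Ω 4 := by
  refine ⟨fun p _ F _ _ _ Ω _ ⟨x⟩ => main p F Ω x, AlgebraicClosure (ZMod 2), inferInstance, ?_,
    inferInstance, fun Ω _ ⟨x⟩ => main 2 _ Ω x⟩
  rw [← Cardinal.mk_le_aleph0_iff]
  exact (Algebra.IsAlgebraic.cardinalMk_le_max (ZMod 2) _).trans (by simp)

end Pool.Agent.Results.MP_57df8f_al.LocFin
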